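import Mathlib

/-!
# Dense locally finite subgroups of the isometry group of the Urysohn `Δ`-metric space are `∞`-MIF

We prove the property asked for in the question for every countable distance value set `Δ` with at
least two elements for which `inf Δ = 0` or all bounded parts of `Δ` are finite.

Idea.  Let `A` be a finite subgroup of a dense subgroup `G` of `Iso(U)` and let `Γ` be a finite group
containing `A`.  It is enough to find a finite `A`-invariant set `Y` of points of `U` on which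
`A × Γ` acts by isometries so that the given action of `A` is the restriction to the diagonal
subgroup `{(a, a)}`: the elements `(1, γ)` of `A × Γ` extend to isometries of `U` (ultrahomogeneity)
and can be approximated by elements of `G`.  Such a `Y` is obtained from points `y_γ` (`γ ∈ Γ`) with
`dist y_γ (a y_δ) = k a` for all `γ, δ` and `a ≠ 1`, and `dist y_γ y_δ = s` for `γ ≠ δ`.  They are
constructed one after the other from a type over a finite set over which some displacement vector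
`(dist y (a y))_a` is hereditarily realized.  If bounded parts of `Δ` are finite such a type exists
by the pigeonhole principle.  If `inf Δ = 0` the displacement is forced to be constant: if
`dist z y₁ = r₁`, `dist z (a y₁) = r₁ + ρ`, `dist z y₂ = r₂`, `dist z (a y₂) = ρ - r₂`, then
`dist z (a z) = ρ`.
-/

namespace Pool.Agent.Results.MP_fee130_al.DenseLocallyFiniteInftyMIF

/-- `Δ` is a distance value set: a set of positive reals such that `min (a + b) (sup Δ) ∈ Δ` for all
`a, b ∈ Δ`, the supremum being taken in the extended reals. -/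
def IsDistanceValueSet (Δ : Set ℝ) : Prop :=
  (∀ a ∈ Δ, 0 < a) ∧
    ∀ a ∈ Δ, ∀ b ∈ Δ, ∃ c ∈ Δ,
      (c : EReal) = min ((a + b : ℝ) : EReal) (⨆ x ∈ Δ, (x : EReal))

/-- `U` is the (countable) Urysohn `Δ`-metric space: `U` is countable, all its nonzero distances lie
in `Δ`, and it has the one point extension property for `Δ`-valued distance functions on finite
subsets. -/
def IsUrysohn (Δ : Set ℝ) (U : Type*) [MetricSpace U] : Prop :=
  Countable U ∧ (∀ x y : U, x ≠ y → dist x y ∈ Δ) ∧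
    ∀ (A : Finset U) (f : U → ℝ), (∀ a ∈ A, f a ∈ Δ) →
      (∀ a ∈ A, ∀ b ∈ A, |f a - f b| ≤ dist a b ∧ dist a b ≤ f a + f b) →
        ∃ x : U, ∀ a ∈ A, dist x a = f a

/-- The subgroup `G` of the isometry group of `U` is dense for the topology of pointwise convergence
(`U` being discrete): every isometry agrees with an element of `G` on every given finite set. -/
def IsDenseSubgroup {U : Type*} [MetricSpace U] (G : Subgroup (U ≃ᵢ U)) : Prop :=
  ∀ (g : U ≃ᵢ U) (A : Finset U), ∃ h ∈ G, ∀ x ∈ A, h x = g x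

/-- Locally finite groups: finitely generated subgroups are finite. -/
def IsLocallyFiniteGroup (G : Type*) [Group G] : Prop :=
  ∀ s : Finset G, Finite (Subgroup.closure (s : Set G))

/-- `∞`-MIF groups.  For `g₁, …, g_k ∈ G` with generated subgroup `A` and every sequence
`w₀, w₁, …` of words in the free product `A * F_n`, none of which lies in `A`: if some finite group
`Γ` containing `A` (through an injective homomorphism `ι`) has elements `γ₁, …, γ_n` with
`w_i(γ) ≠ 1` for all `i`, then `G` has elements `h₁, …, h_n` with `w_i(h) ≠ 1` for all `i`. -/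
def IsInftyMIF (G : Type*) [Group G] : Prop :=
  ∀ (k n : ℕ) (g : Fin k → G)
    (w : ℕ → Monoid.Coprod (Subgroup.closure (Set.range g)) (FreeGroup (Fin n))),
    (∀ i, w i ∉ Set.range (Monoid.Coprod.inl : _ →* Monoid.Coprod _ (FreeGroup (Fin n)))) →
    (∃ (Γ : Type) (_ : Group Γ) (_ : Finite Γ) (ι : Subgroup.closure (Set.range g) →* Γ)
      (γ : Fin n → Γ), Function.Injective ι ∧
        ∀ i, Monoid.Coprod.lift ι (FreeGroup.lift γ) (w i) ≠ 1) →
    ∃ h : Fin n → G, ∀ i,
      Monoid.Coprod.lift (Subgroup.closure (Set.range g)).subtype (FreeGroup.lift h) (w i) ≠ 1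

variable {Δ : Set ℝ} {U : Type*} [MetricSpace U]

theorem IsDistanceValueSet.pos (h : IsDistanceValueSet Δ) {a : ℝ} (ha : a ∈ Δ) : 0 < a := h.1 a ha

theorem IsDistanceValueSet.add_mem (h : IsDistanceValueSet Δ) {a b c : ℝ} (ha : a ∈ Δ) (hb : b ∈ Δ)
    (hc : c ∈ Δ) (hle : a + b ≤ c) : a + b ∈ Δ := by
  obtain ⟨d, hd, hde⟩ := h.2 a ha b hb
  have h1 : ((a + b : ℝ) : EReal) ≤ ⨆ x ∈ Δ, (x : EReal) := by
    refine le_trans ?_ (le_iSup₂_of_le c hc le_rfl)
    exact_mod_cast hle
  rw [min_eq_left h1] at hde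
  have : d = a + b := by exact_mod_cast hde
  rwa [← this]

theorem IsDistanceValueSet.add_or (h : IsDistanceValueSet Δ) {a b : ℝ} (ha : a ∈ Δ) (hb : b ∈ Δ) :
    a + b ∈ Δ ∨ ∃ M ∈ Δ, (∀ c ∈ Δ, c ≤ M) ∧ M ≤ a + b := by
  obtain ⟨d, hd, hde⟩ := h.2 a ha b hb
  rcases le_total ((a + b : ℝ) : EReal) (⨆ x ∈ Δ, (x : EReal)) with h1 | h1
  · rw [min_eq_left h1] at hde
    have : d = a + b := by exact_mod_cast hde
    left; rwa [← this]
  · rw [min_eq_right h1] at hde
    right
    refine ⟨d, hd, ?_, ?_⟩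
    · intro c hc
      have : (c : EReal) ≤ (d : EReal) := by
        rw [hde]; exact le_iSup₂_of_le c hc le_rfl
      exact_mod_cast this
    · have : (d : EReal) ≤ ((a + b : ℝ) : EReal) := by rw [hde]; exact h1
      exact_mod_cast this

/-- multiples stay in the set as long as they are bounded by an element. -/
theorem IsDistanceValueSet.nsmul_mem (h : IsDistanceValueSet Δ) {s c : ℝ} (hs : s ∈ Δ) (hc : c ∈ Δ)
    (n : ℕ) (hle : (n + 1 : ℝ) * s ≤ c) : (n + 1 : ℝ) * s ∈ Δ := by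
  induction n with
  | zero => simpa using hs
  | succ n ih =>
    have hs0 := h.pos hs
    have h1 : (n + 1 : ℝ) * s ≤ c := by push_cast at hle; nlinarith
    have h2 := ih h1
    have h3 : ((n + 1 : ℕ) + 1 : ℝ) * s = (n + 1 : ℝ) * s + s := by push_cast; ring
    rw [h3] at hle ⊢
    exact h.add_mem h2 hs hc hle

theorem exists_max (S : Finset ℝ)
    (hS : ∀ s ∈ S, s ∈ Δ) (hne : Δ.Nonempty) : ∃ K ∈ Δ, ∀ s ∈ S, s ≤ K := by
  induction S using Finset.induction_on with
  | empty => obtain ⟨k, hk⟩ := hne; exact ⟨k, hk, by simp⟩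
  | insert a S ha ih =>
    obtain ⟨K, hK, hK'⟩ := ih (fun s hs => hS s (Finset.mem_insert_of_mem hs))
    rcases le_total a K with h1 | h1
    · exact ⟨K, hK, by intro s hs; rcases Finset.mem_insert.1 hs with rfl | hs; exacts [h1, hK' s hs]⟩
    · exact ⟨a, hS a (Finset.mem_insert_self _ _), by
        intro s hs; rcases Finset.mem_insert.1 hs with rfl | hs
        exacts [le_rfl, (hK' s hs).trans h1]⟩

theorem exists_min (S : Finset ℝ)
    (hS : ∀ s ∈ S, s ∈ Δ) (hne : Δ.Nonempty) : ∃ t ∈ Δ, ∀ s ∈ S, t ≤ s := by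
  induction S using Finset.induction_on with
  | empty => obtain ⟨k, hk⟩ := hne; exact ⟨k, hk, by simp⟩
  | insert a S ha ih =>
    obtain ⟨K, hK, hK'⟩ := ih (fun s hs => hS s (Finset.mem_insert_of_mem hs))
    rcases le_total a K with h1 | h1
    · exact ⟨a, hS a (Finset.mem_insert_self _ _), by
        intro s hs; rcases Finset.mem_insert.1 hs with rfl | hs
        exacts [le_rfl, h1.trans (hK' s hs)]⟩
    · exact ⟨K, hK, by intro s hs; rcases Finset.mem_insert.1 hs with rfl | hs; exacts [h1, hK' s hs]⟩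

/-- There is a non-maximal element which is at least half of a given element. -/
theorem IsDistanceValueSet.exists_half (h : IsDistanceValueSet Δ) (h2 : Δ.Nontrivial) {K : ℝ}
    (hK : K ∈ Δ) : ∃ R ∈ Δ, (∃ R₂ ∈ Δ, R < R₂) ∧ K ≤ 2 * R := by
  by_cases hmax : ∃ R₂ ∈ Δ, K < R₂
  · exact ⟨K, hK, hmax, by linarith [h.pos hK]⟩
  · push Not at hmax
    -- K is the maximum
    obtain ⟨δ, hδ, hne⟩ := h2.exists_ne K
    have hδK : δ < K := lt_of_le_of_ne (hmax δ hδ) hne
    have hδ0 := h.pos hδ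
    -- there is n with K ≤ 2^(n+1) * δ
    have hex : ∃ n : ℕ, K ≤ 2 ^ (n + 1) * δ := by
      obtain ⟨n, hn⟩ := exists_nat_ge (K / δ)
      refine ⟨n, ?_⟩
      have h1 : K ≤ n * δ := by rwa [div_le_iff₀ hδ0] at hn
      have h3 : (n : ℝ) ≤ 2 ^ (n + 1) := by
        have : n < 2 ^ (n + 1) := by
          calc n < n + 1 := Nat.lt_succ_self n
            _ < 2 ^ (n + 1) := Nat.lt_two_pow_self
        exact_mod_cast this.le
      nlinarith
    classical
    let n := Nat.find hex
    have hn : K ≤ 2 ^ (n + 1) * δ := Nat.find_spec hex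
    have hlt : ∀ m, m ≤ n → (2 : ℝ) ^ m * δ < K ∧ (2 : ℝ) ^ m * δ ∈ Δ := by
      intro m
      induction m with
      | zero => intro _; simpa using ⟨hδK, hδ⟩
      | succ m ih =>
        intro hm
        obtain ⟨h1, h1'⟩ := ih (by omega)
        have h3 : ¬ K ≤ 2 ^ (m + 1) * δ := Nat.find_min hex (by omega)
        push Not at h3
        refine ⟨h3, ?_⟩
        have h4 : (2 : ℝ) ^ (m + 1) * δ = 2 ^ m * δ + 2 ^ m * δ := by ring
        rw [h4] at h3 ⊢
        exact h.add_mem h1' h1' hK h3.le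
    obtain ⟨h5, h6⟩ := hlt n le_rfl
    exact ⟨2 ^ n * δ, h6, ⟨K, hK, h5⟩, by rw [pow_succ] at hn; linarith⟩

/-- A small increase of a non-maximal element. -/
theorem IsDistanceValueSet.exists_step (h : IsDistanceValueSet Δ) {R t : ℝ}
    (hR : R ∈ Δ) (hR2 : ∃ R₂ ∈ Δ, R < R₂) (ht : t ∈ Δ) :
    ∃ R' ∈ Δ, R < R' ∧ R' ≤ R + t := by
  have ht0 := h.pos ht
  rcases h.add_or hR ht with h1 | ⟨M, hM, hM1, hM2⟩
  · exact ⟨R + t, h1, by linarith, le_rfl⟩
  · obtain ⟨R₂, hR₂, hlt⟩ := hR2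
    exact ⟨M, hM, lt_of_lt_of_le hlt (hM1 _ hR₂), hM2⟩

/-- Density in case the infimum is zero. -/
theorem IsDistanceValueSet.dense (h : IsDistanceValueSet Δ) (h0 : ∀ ε > 0, ∃ δ ∈ Δ, δ < ε)
    {p q M : ℝ} (hp : 0 ≤ p) (hpq : p < q) (hM : M ∈ Δ) (hqM : q ≤ M) : ∃ δ ∈ Δ, p < δ ∧ δ < q := by
  obtain ⟨s, hs, hsl⟩ := h0 (q - p) (by linarith)
  have hs0 := h.pos hs
  have hex : ∃ n : ℕ, p < (n + 1 : ℝ) * s := by
    obtain ⟨n, hn⟩ := exists_nat_gt (p / s)
    refine ⟨n, ?_⟩
    have h1 : p < n * s := by rwa [div_lt_iff₀ hs0] at hn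
    nlinarith
  classical
  let n := Nat.find hex
  have hn : p < (n + 1 : ℝ) * s := Nat.find_spec hex
  have hn' : (n + 1 : ℝ) * s ≤ p + s := by
    rcases Nat.eq_zero_or_pos n with h1 | h1
    · rw [h1]; simp; exact hp
    · have h3 : ¬ p < ((n - 1 : ℕ) + 1 : ℝ) * s := Nat.find_min hex (by omega)
      push Not at h3
      have h4 : ((n - 1 : ℕ) : ℝ) = n - 1 := by
        rw [Nat.cast_sub h1]; simp
      rw [h4] at h3
      linarith
  refine ⟨(n + 1 : ℝ) * s, h.nsmul_mem hs hM n (by linarith), hn, by linarith⟩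

theorem IsUrysohn.real_indexed (hU : IsUrysohn Δ U) {ι : Type*} [Finite ι] (p : ι → U) (v : ι → ℝ)
    (hv : ∀ i, v i ∈ Δ)
    (hk : ∀ i j, |v i - v j| ≤ dist (p i) (p j) ∧ dist (p i) (p j) ≤ v i + v j) :
    ∃ z, ∀ i, dist z (p i) = v i := by
  classical
  have := Fintype.ofFinite ι
  have hwd : ∀ i j, p i = p j → v i = v j := by
    intro i j hij
    have := (hk i j).1
    rw [hij, dist_self] at this
    have := abs_nonneg (v i - v j)
    have h0 : |v i - v j| = 0 := by linarith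
    rw [abs_eq_zero] at h0
    linarith
  let f : U → ℝ := fun u => if h : ∃ i, p i = u then v h.choose else 0
  have hf : ∀ i, f (p i) = v i := by
    intro i
    have h : ∃ j, p j = p i := ⟨i, rfl⟩
    simp only [f]
    rw [dif_pos h]
    exact hwd _ _ h.choose_spec
  obtain ⟨z, hz⟩ := hU.2.2 (Finset.univ.image p) f
    (by
      intro a ha
      obtain ⟨i, -, rfl⟩ := Finset.mem_image.1 ha
      rw [hf]; exact hv i)
    (by
      intro a ha b hb
      obtain ⟨i, -, rfl⟩ := Finset.mem_image.1 ha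
      obtain ⟨j, -, rfl⟩ := Finset.mem_image.1 hb
      rw [hf, hf]; exact hk i j)
  refine ⟨z, fun i => ?_⟩
  rw [hz (p i) (Finset.mem_image_of_mem _ (Finset.mem_univ _)), hf]

theorem IsUrysohn.dist_mem (hU : IsUrysohn Δ U) {x y : U} (h : x ≠ y) : dist x y ∈ Δ := hU.2.1 x y h

/-- extension of the type of `z` over `F` by finitely many new values. -/
theorem IsUrysohn.ext (hU : IsUrysohn Δ U) (F : Finset U) (z : U) (hz : z ∉ F)
    {ι : Type*} [Finite ι] (q : ι → U) (v : ι → ℝ) (hv : ∀ i, v i ∈ Δ)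
    (h1 : ∀ i j, |v i - v j| ≤ dist (q i) (q j) ∧ dist (q i) (q j) ≤ v i + v j)
    (h2 : ∀ x ∈ F, ∀ i, |dist z x - v i| ≤ dist x (q i) ∧ dist x (q i) ≤ dist z x + v i) :
    ∃ y, (∀ x ∈ F, dist y x = dist z x) ∧ ∀ i, dist y (q i) = v i := by
  obtain ⟨y, hy⟩ := hU.real_indexed (ι := F ⊕ ι) (Sum.elim (fun x => x.1) q)
    (Sum.elim (fun x => dist z x.1) v)
    (by
      rintro (x | i)
      · exact hU.dist_mem (by rintro rfl; exact hz x.2)
      · exact hv i)
    (by
      rintro (x | i) (y | j)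
      · simp only [Sum.elim_inl]
        refine ⟨?_, ?_⟩
        · rw [abs_le]
          have := dist_triangle z x.1 y.1
          have := dist_triangle z y.1 x.1
          rw [dist_comm y.1 x.1] at this
          constructor <;> linarith
        · have := dist_triangle x.1 z y.1
          rwa [dist_comm x.1 z] at this
      · simp only [Sum.elim_inl, Sum.elim_inr]
        exact h2 x.1 x.2 j
      · simp only [Sum.elim_inl, Sum.elim_inr]
        have := h2 y.1 y.2 i
        rw [abs_sub_comm, dist_comm (q i), add_comm (v i)]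
        exact this
      · simp only [Sum.elim_inr]
        exact h1 i j)
  exact ⟨y, fun x hx => hy (Sum.inl ⟨x, hx⟩), fun i => hy (Sum.inr i)⟩

theorem IsUrysohn.nonempty (hU : IsUrysohn Δ U) : Nonempty U := by
  obtain ⟨x, -⟩ := hU.2.2 ∅ (fun _ => 0) (by simp) (by simp)
  exact ⟨x⟩

theorem finite_dists (hΔ : IsDistanceValueSet Δ) (hU : IsUrysohn Δ U) (hne : Δ.Nonempty)
    (F : Finset U) :
    (∃ K ∈ Δ, ∀ u ∈ F, ∀ v ∈ F, dist u v ≤ K) ∧
      (∃ t ∈ Δ, ∀ u ∈ F, ∀ v ∈ F, u ≠ v → t ≤ dist u v) := by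
  classical
  let S : Finset ℝ := ((F ×ˢ F).filter (fun p => p.1 ≠ p.2)).image (fun p => dist p.1 p.2)
  have hS : ∀ s ∈ S, s ∈ Δ := by
    intro s hs
    simp only [S, Finset.mem_image, Finset.mem_filter] at hs
    obtain ⟨p, ⟨-, hp⟩, rfl⟩ := hs
    exact hU.dist_mem hp
  have hmem : ∀ u ∈ F, ∀ v ∈ F, u ≠ v → dist u v ∈ S := by
    intro u hu v hv huv
    simp only [S, Finset.mem_image, Finset.mem_filter]
    exact ⟨(u, v), ⟨Finset.mem_product.2 ⟨hu, hv⟩, huv⟩, rfl⟩
  refine ⟨?_, ?_⟩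
  · obtain ⟨K, hK, hK'⟩ := exists_max S hS hne
    refine ⟨K, hK, fun u hu v hv => ?_⟩
    by_cases huv : u = v
    · subst huv
      rw [dist_self]
      exact (hΔ.pos hK).le
    · exact hK' _ (hmem u hu v hv huv)
  · obtain ⟨K, hK, hK'⟩ := exists_min S hS hne
    exact ⟨K, hK, fun u hu v hv huv => hK' _ (hmem u hu v hv huv)⟩

/-- Ultrahomogeneity. -/
theorem IsUrysohn.ultrahomogeneous (hU : IsUrysohn Δ U) {ι : Type*} [Finite ι] (p q : ι → U)
    (hpq : ∀ i j, dist (p i) (p j) = dist (q i) (q j)) : ∃ g : U ≃ᵢ U, ∀ i, g (p i) = q i := by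
  classical
  have := Fintype.ofFinite ι
  have : Countable U := hU.1
  have : Nonempty U := hU.nonempty
  have := Encodable.ofCountable U
  -- partial isometries
  let P := {S : Finset (U × U) // ∀ a ∈ S, ∀ b ∈ S, dist a.1 b.1 = dist a.2 b.2}
  have hext : ∀ (S : P) (x : U), ∃ T : P, S ≤ T ∧ ∃ y, (x, y) ∈ T.1 := by
    intro S x
    by_cases hx : ∃ y, (x, y) ∈ S.1
    · exact ⟨S, le_rfl, hx⟩
    · obtain ⟨y, hy⟩ := hU.real_indexed (ι := S.1) (fun s => s.1.2) (fun s => dist x s.1.1)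
        (fun s => hU.dist_mem (by
          rintro rfl
          exact hx ⟨s.1.2, s.2⟩))
        (by
          intro s t
          rw [← S.2 s.1 s.2 t.1 t.2]
          refine ⟨?_, ?_⟩
          · rw [abs_le]
            have h1 := dist_triangle x s.1.1 t.1.1
            have h2 := dist_triangle x t.1.1 s.1.1
            rw [dist_comm t.1.1 s.1.1] at h2
            constructor <;> linarith
          · have := dist_triangle s.1.1 x t.1.1
            rwa [dist_comm s.1.1 x] at this)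
      refine ⟨⟨insert (x, y) S.1, ?_⟩, ?_, y, Finset.mem_insert_self _ _⟩
      · intro a ha b hb
        rcases Finset.mem_insert.1 ha with rfl | ha <;> rcases Finset.mem_insert.1 hb with rfl | hb
        · simp
        · exact (hy ⟨b, hb⟩).symm
        · have := (hy ⟨a, ha⟩).symm
          simp only at this ⊢
          rw [dist_comm a.1, dist_comm a.2]
          exact this
        · exact S.2 a ha b hb
      · exact Finset.subset_insert _ _
  let sw : P → P := fun S => ⟨S.1.image Prod.swap, by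
    intro a ha b hb
    obtain ⟨a', ha', rfl⟩ := Finset.mem_image.1 ha
    obtain ⟨b', hb', rfl⟩ := Finset.mem_image.1 hb
    exact (S.2 a' ha' b' hb').symm⟩
  have hext' : ∀ (S : P) (y : U), ∃ T : P, S ≤ T ∧ ∃ x, (x, y) ∈ T.1 := by
    intro S y
    obtain ⟨T, hST, x, hx⟩ := hext (sw S) y
    refine ⟨sw T, ?_, x, ?_⟩
    · intro a ha
      have h1 : a.swap ∈ (sw S).1 := Finset.mem_image_of_mem _ ha
      have h2 := hST h1
      have h3 : a.swap.swap ∈ (sw T).1 := Finset.mem_image_of_mem _ h2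
      simpa using h3
    · have h3 : (y, x).swap ∈ (sw T).1 := Finset.mem_image_of_mem _ hx
      simpa using h3
  let D : U ⊕ U → Order.Cofinal P := fun i => match i with
    | Sum.inl x => ⟨{T | ∃ y, (x, y) ∈ T.1}, fun S => by
        obtain ⟨T, h1, h2⟩ := hext S x
        exact ⟨T, h2, h1⟩⟩
    | Sum.inr y => ⟨{T | ∃ x, (x, y) ∈ T.1}, fun S => by
        obtain ⟨T, h1, h2⟩ := hext' S y
        exact ⟨T, h2, h1⟩⟩
  let S0 : P := ⟨Finset.univ.image (fun i => (p i, q i)), by
    intro a ha b hb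
    obtain ⟨i, -, rfl⟩ := Finset.mem_image.1 ha
    obtain ⟨j, -, rfl⟩ := Finset.mem_image.1 hb
    exact hpq i j⟩
  let I := Order.idealOfCofinals S0 D
  have hI : ∀ S ∈ I, ∀ T ∈ I, ∃ R ∈ I, S ≤ R ∧ T ≤ R := fun S hS T hT => I.directed S hS T hT
  have hS0 : S0 ∈ I := Order.mem_idealOfCofinals S0 D
  have hcoh : ∀ a b : U × U, (∃ S ∈ I, a ∈ S.1) → (∃ S ∈ I, b ∈ S.1) →
      dist a.1 b.1 = dist a.2 b.2 := by
    rintro a b ⟨S, hS, ha⟩ ⟨T, hT, hb⟩
    obtain ⟨R, hR, h1, h2⟩ := hI S hS T hT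
    exact R.2 a (h1 ha) b (h2 hb)
  have hfw : ∀ x, ∃ y, ∃ S ∈ I, (x, y) ∈ S.1 := by
    intro x
    obtain ⟨T, hT, hT'⟩ := Order.cofinal_meets_idealOfCofinals S0 D (Sum.inl x)
    obtain ⟨y, hy⟩ := hT
    exact ⟨y, T, hT', hy⟩
  have hbw : ∀ y, ∃ x, ∃ S ∈ I, (x, y) ∈ S.1 := by
    intro x
    obtain ⟨T, hT, hT'⟩ := Order.cofinal_meets_idealOfCofinals S0 D (Sum.inr x)
    obtain ⟨y, hy⟩ := hT
    exact ⟨y, T, hT', hy⟩
  choose f hf using hfw
  choose g hg using hbw
  have hiso : Isometry f := by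
    refine Isometry.of_dist_eq (fun x y => ?_)
    exact (hcoh (x, f x) (y, f y) (hf x) (hf y)).symm
  refine ⟨IsometryEquiv.mk' f g ?_ hiso, ?_⟩
  · intro y
    have := hcoh (g y, f (g y)) (g y, y) (hf (g y)) (hg y)
    simp only [dist_self] at this
    exact dist_eq_zero.1 this.symm
  · intro i
    have h1 : (p i, q i) ∈ S0.1 := Finset.mem_image_of_mem _ (Finset.mem_univ i)
    have := hcoh (p i, f (p i)) (p i, q i) (hf (p i)) ⟨S0, hS0, h1⟩
    simp only [dist_self] at this
    exact dist_eq_zero.1 this.symm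

/-- there are elements of `Δ` below / above finitely many given elements. -/
theorem exists_le_all (hΔ : IsDistanceValueSet Δ) (hne : Δ.Nonempty) {ι : Type*} [Finite ι]
    (v : ι → ℝ) (hv : ∀ i, v i ∈ Δ) : (∃ t ∈ Δ, ∀ i, t ≤ v i) ∧ (∃ K ∈ Δ, ∀ i, v i ≤ K) := by
  classical
  have := Fintype.ofFinite ι
  have hS : ∀ s ∈ Finset.univ.image v, s ∈ Δ := by
    intro s hs
    obtain ⟨i, -, rfl⟩ := Finset.mem_image.1 hs
    exact hv i
  obtain ⟨t, ht, ht'⟩ := exists_min _ hS hne
  obtain ⟨K, hK, hK'⟩ := exists_max _ hS hne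
  exact ⟨⟨t, ht, fun i => ht' _ (Finset.mem_image_of_mem _ (Finset.mem_univ _))⟩,
    ⟨K, hK, fun i => hK' _ (Finset.mem_image_of_mem _ (Finset.mem_univ _))⟩⟩

/-- Key construction: given a finite set `F` and a point `w ∉ F`, there is a point at the same
(non-maximal, large) distance `R` from all points of `F` and at a slightly larger distance
from `w`. -/
theorem exists_dist_R (hΔ : IsDistanceValueSet Δ) (h2 : Δ.Nontrivial) (hU : IsUrysohn Δ U)
    (F : Finset U) (w : U) (hw : w ∉ F) {K₀ : ℝ} (hK₀ : K₀ ∈ Δ) :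
    ∃ R ∈ Δ, (∃ R₂ ∈ Δ, R < R₂) ∧ K₀ ≤ 2 * R ∧ ∃ x, (∀ u ∈ F, dist x u = R) ∧ R < dist x w := by
  classical
  have hne : Δ.Nonempty := h2.nonempty
  obtain ⟨⟨K, hK, hK'⟩, ⟨t, ht, ht'⟩⟩ := finite_dists hΔ hU hne (insert w F)
  obtain ⟨K₁, hK₁, hK₁'⟩ := (exists_le_all hΔ hne ![K₀, K] (by
    intro i; fin_cases i; exacts [hK₀, hK])).2
  have e0 := hK₁' 0
  have e1 := hK₁' 1
  simp only [Matrix.cons_val_zero, Matrix.cons_val_one] at e0 e1
  obtain ⟨R, hR, hR2, hKR⟩ := hΔ.exists_half h2 hK₁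
  obtain ⟨R', hR', hlt, hle⟩ := hΔ.exists_step hR hR2 ht
  have ht0 := hΔ.pos ht
  have hR0 := hΔ.pos hR
  obtain ⟨x, hx⟩ := hU.2.2 (insert w F) (fun u => if u = w then R' else R)
    (by intro a _; split_ifs; exacts [hR', hR])
    (by
      intro a ha b hb
      have h3 := hK' a ha b hb
      have h4 := ht' a ha b hb
      split_ifs with h5 h6 h6
      · subst h5; subst h6; simp; linarith
      · have : a ≠ b := fun h => h6 (h ▸ h5)
        have h4 := h4 this
        rw [abs_of_pos (by linarith)]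
        constructor <;> linarith
      · have : a ≠ b := fun h => h5 (h ▸ h6)
        have h4 := h4 this
        rw [abs_of_neg (by linarith)]
        constructor <;> linarith
      · simp; linarith)
  refine ⟨R, hR, hR2, by linarith, x, ?_, ?_⟩
  · intro u hu
    rw [hx u (Finset.mem_insert_of_mem hu), if_neg]
    rintro rfl; exact hw hu
  · rw [hx w (Finset.mem_insert_self _ _), if_pos rfl]; exact hlt

theorem moved_of_dist_ne (a : U ≃ᵢ U) {z x : U} (h : dist z x ≠ dist z (a x)) : a z ≠ z := by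
  intro h1
  apply h
  conv_rhs => rw [← h1]
  rw [a.dist_eq]

theorem exists_moved_notMem (hΔ : IsDistanceValueSet Δ) (h2 : Δ.Nontrivial) (hU : IsUrysohn Δ U)
    (a : U ≃ᵢ U) (ha : ∃ x, a x ≠ x) (F : Finset U) : ∃ x, x ∉ F ∧ a x ≠ x := by
  classical
  obtain ⟨x₀, hx₀⟩ := ha
  obtain ⟨K₀, hK₀⟩ := h2.nonempty
  obtain ⟨R, hR, -, -, x, hx, hxw⟩ := exists_dist_R hΔ h2 hU ((insert x₀ F).erase (a x₀)) (a x₀)
    (by simp) hK₀
  have hR0 := hΔ.pos hR
  refine ⟨x, ?_, ?_⟩
  · intro hxF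
    by_cases h : x = a x₀
    · rw [← h, dist_self] at hxw; linarith
    · have := hx x (Finset.mem_erase.2 ⟨h, Finset.mem_insert_of_mem hxF⟩)
      rw [dist_self] at this; linarith
  · apply moved_of_dist_ne a (x := x₀)
    rw [hx x₀ (Finset.mem_erase.2 ⟨hx₀.symm, Finset.mem_insert_self _ _⟩)]
    exact hxw.ne

theorem exists_moved_R (hΔ : IsDistanceValueSet Δ) (h2 : Δ.Nontrivial) (hU : IsUrysohn Δ U)
    (a : U ≃ᵢ U) (ha : ∃ x, a x ≠ x) (F : Finset U) {K₀ : ℝ} (hK₀ : K₀ ∈ Δ) :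
    ∃ R ∈ Δ, (∃ R₂ ∈ Δ, R < R₂) ∧ K₀ ≤ 2 * R ∧ ∃ x, (∀ u ∈ F, dist x u = R) ∧ a x ≠ x := by
  classical
  obtain ⟨x₁, hx₁, hm⟩ := exists_moved_notMem hΔ h2 hU a ha (F.image a.symm)
  have h3 : a x₁ ∉ F := by
    intro h
    apply hx₁
    have := Finset.mem_image_of_mem a.symm h
    simpa using this
  obtain ⟨R, hR, hR2, hKR, x, hx, hxw⟩ := exists_dist_R hΔ h2 hU (insert x₁ F) (a x₁)
    (by simp [h3, hm]) hK₀
  refine ⟨R, hR, hR2, hKR, x, fun u hu => hx u (Finset.mem_insert_of_mem hu), ?_⟩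
  apply moved_of_dist_ne a (x := x₁)
  rw [hx x₁ (Finset.mem_insert_self _ _)]
  exact hxw.ne

/-- Any type extends to a type all of whose realizations are moved by `a`. -/
theorem exists_ext_moved (hΔ : IsDistanceValueSet Δ) (h2 : Δ.Nontrivial) (hU : IsUrysohn Δ U)
    (a : U ≃ᵢ U) (ha : ∃ x, a x ≠ x) (F : Finset U) (z : U) (hz : z ∉ F) :
    ∃ (F' : Finset U) (z' : U), F ⊆ F' ∧ z' ∉ F' ∧ (∀ x ∈ F, dist z' x = dist z x) ∧
      ∀ y, (∀ x ∈ F', dist y x = dist z' x) → a y ≠ y := by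
  classical
  have hne : Δ.Nonempty := h2.nonempty
  obtain ⟨u₀⟩ := hU.nonempty
  -- a bound for the values of the type
  obtain ⟨⟨K, hK, hK'⟩, ⟨t₁, ht₁, ht₁'⟩⟩ := finite_dists hΔ hU hne (insert z F)
  obtain ⟨R, hR, hR2, hKR, x, hx, hm⟩ := exists_moved_R hΔ h2 hU a ha
    (F ∪ F.image a.symm ∪ {u₀, a.symm u₀}) hK
  have hR0 := hΔ.pos hR
  have hx1 : ∀ u ∈ F, dist x u = R := fun u hu => hx u (by simp [hu])
  have hx2 : ∀ u ∈ F, dist (a x) u = R := by
    intro u hu
    have : dist x (a.symm u) = R := hx _ (by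
      have := Finset.mem_image_of_mem a.symm hu
      simp only [Finset.mem_union]
      left; right; exact this)
    rw [← this, ← a.dist_eq x, a.apply_symm_apply]
  have he : dist x (a x) ≤ 2 * R := by
    have h3 := hx u₀ (by simp)
    have h4 := hx (a.symm u₀) (by simp)
    rw [← a.dist_eq x, a.apply_symm_apply] at h4
    have := dist_triangle x u₀ (a x)
    rw [dist_comm u₀] at this
    linarith
  have heΔ : dist x (a x) ∈ Δ := hU.dist_mem hm.symm
  obtain ⟨t, ht, ht'⟩ := (exists_le_all hΔ hne ![t₁, dist x (a x)] (by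
    intro i; fin_cases i; exacts [ht₁, heΔ])).1
  have e0 := ht' 0
  have e1 := ht' 1
  simp only [Matrix.cons_val_zero, Matrix.cons_val_one] at e0 e1
  obtain ⟨R', hR', hlt, hle⟩ := hΔ.exists_step hR hR2 ht
  have ht0 := hΔ.pos ht
  have hval : ∀ u ∈ F, t ≤ dist z u ∧ dist z u ≤ 2 * R := by
    intro u hu
    have h3 := ht₁' z (Finset.mem_insert_self _ _) u (Finset.mem_insert_of_mem hu)
      (by rintro rfl; exact hz hu)
    have h4 := hK' z (Finset.mem_insert_self _ _) u (Finset.mem_insert_of_mem hu)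
    exact ⟨by linarith, by linarith⟩
  obtain ⟨z', hz', hz''⟩ := hU.ext F z hz ![x, a x] ![R, R']
    (by intro i; fin_cases i; exacts [hR, hR'])
    (by
      have hab : |R - R'| = R' - R := by rw [abs_sub_comm, abs_of_pos (by linarith)]
      intro i j
      fin_cases i <;> fin_cases j
      · simp; linarith
      · simp only [Fin.zero_eta, Matrix.cons_val_zero, Fin.mk_one, Matrix.cons_val_one]
        rw [hab]; constructor <;> linarith
      · simp only [Fin.zero_eta, Matrix.cons_val_zero, Fin.mk_one, Matrix.cons_val_one]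
        rw [abs_sub_comm, hab, dist_comm]; constructor <;> linarith
      · simp; linarith)
    (by
      intro u hu i
      have h3 := hval u hu
      fin_cases i
      · simp only [Fin.zero_eta, Matrix.cons_val_zero]
        rw [dist_comm u x, hx1 u hu, abs_le]
        refine ⟨⟨by linarith, by linarith⟩, by linarith⟩
      · simp only [Fin.mk_one, Matrix.cons_val_one, Matrix.cons_val_fin_one]
        rw [dist_comm u (a x), hx2 u hu, abs_le]
        refine ⟨⟨by linarith, by linarith⟩, by linarith⟩)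
  have h5 := hz'' 0
  have h6 := hz'' 1
  simp only [Matrix.cons_val_zero, Matrix.cons_val_one] at h5 h6
  refine ⟨insert x (insert (a x) F), z', ?_, ?_, hz', ?_⟩
  · intro u hu; simp [hu]
  · simp only [Finset.mem_insert, not_or]
    refine ⟨?_, ?_, ?_⟩
    · rintro rfl; rw [dist_self] at h5; linarith
    · intro h; rw [h, dist_self] at h6; linarith [hΔ.pos hR']
    · intro h
      have h7 := hz' z' h
      rw [dist_self] at h7
      have := hval z' h
      linarith
  · intro y hy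
    have h7 := hy x (by simp)
    have h8 := hy (a x) (by simp)
    apply moved_of_dist_ne a (x := x)
    rw [h7, h8, h5, h6]
    exact hlt.ne

theorem symm_pairs {n : ℕ} (q : Fin n → U) (v : Fin n → ℝ) (h0 : ∀ i, 0 ≤ v i)
    (h : ∀ i j, i < j → |v i - v j| ≤ dist (q i) (q j) ∧ dist (q i) (q j) ≤ v i + v j) :
    ∀ i j, |v i - v j| ≤ dist (q i) (q j) ∧ dist (q i) (q j) ≤ v i + v j := by
  intro i j
  rcases lt_trichotomy i j with hij | rfl | hij
  · exact h i j hij
  · have := h0 i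
    simp; linarith
  · have := h j i hij
    rw [abs_sub_comm, dist_comm, add_comm]
    exact this

theorem chain (hΔ : IsDistanceValueSet Δ) (h0 : ∀ ε > 0, ∃ δ ∈ Δ, δ < ε) (hU : IsUrysohn Δ U)
    (F : Finset U) (z : U) (hz : z ∉ F) (c : U → ℝ) {s mid : ℝ} (hs : s ∈ Δ)
    (hF : ∀ x ∈ F, s ≤ 2 * dist z x) :
    ∀ n : ℕ, ∀ u v : U, (∀ x ∈ F, dist u x = dist z x) → (∀ x ∈ F, dist v x = dist z x) →
      c v < mid → mid ≤ c u → dist u v ≤ n * (s / 2) + 2 * s →
      ∃ u' v' : U, (∀ x ∈ F, dist u' x = dist z x) ∧ (∀ x ∈ F, dist v' x = dist z x) ∧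
        c v' < mid ∧ mid ≤ c u' ∧ dist u' v' ≤ 2 * s := by
  have hs0 := hΔ.pos hs
  intro n
  induction n with
  | zero =>
    intro u v hu hv h1 h2 h3
    refine ⟨u, v, hu, hv, h1, h2, ?_⟩
    simpa using h3
  | succ n ih =>
    intro u v hu hv h1 h2 h3
    by_cases hD : dist u v ≤ 2 * s
    · exact ⟨u, v, hu, hv, h1, h2, hD⟩
    push Not at hD
    have huv : u ≠ v := by
      rintro rfl
      rw [dist_self] at hD; linarith
    have hDΔ := hU.dist_mem huv
    obtain ⟨D', hD', hl, hr⟩ := hΔ.dense h0 (p := dist u v - s) (q := dist u v - s / 2)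
      (by linarith) (by linarith) hDΔ (by linarith)
    obtain ⟨w, hw, hw'⟩ := hU.ext F z hz ![u, v] ![s, D']
      (by intro i; fin_cases i; exacts [hs, hD'])
      (by
        apply symm_pairs
        · intro i; fin_cases i
          · exact hs0.le
          · exact (hΔ.pos hD').le
        · intro i j hij
          fin_cases i <;> fin_cases j <;> first | (exfalso; revert hij; decide) | skip
          simp only [Fin.zero_eta, Matrix.cons_val_zero, Fin.mk_one, Matrix.cons_val_one,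
            Matrix.cons_val_fin_one]
          rw [abs_le]
          refine ⟨⟨by linarith, by linarith⟩, by linarith⟩)
      (by
        intro x hx i
        have e1 := hu x hx
        have e2 := hv x hx
        have e3 := hF x hx
        fin_cases i
        · simp only [Fin.zero_eta, Matrix.cons_val_zero]
          rw [dist_comm x u, e1, abs_le]
          refine ⟨⟨by linarith, by linarith⟩, by linarith⟩
        · simp only [Fin.mk_one, Matrix.cons_val_one, Matrix.cons_val_fin_one]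
          have e4 := dist_triangle u x v
          rw [dist_comm x v, e1, e2] at e4
          rw [dist_comm x v, e2, abs_le]
          have := hΔ.pos hD'
          refine ⟨⟨by linarith, by linarith⟩, by linarith⟩)
    have g1 := hw' 0
    have g2 := hw' 1
    simp only [Matrix.cons_val_zero, Matrix.cons_val_one, Matrix.cons_val_fin_one] at g1 g2
    by_cases hc : mid ≤ c w
    · apply ih w v hw hv h1 hc
      push_cast at h3
      linarith
    · push Not at hc
      refine ⟨u, w, hu, hw, hc, h2, ?_⟩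
      rw [dist_comm, g1]; linarith

/-- The forcing configuration. -/
theorem force (hΔ : IsDistanceValueSet Δ) (hU : IsUrysohn Δ U) (a : U ≃ᵢ U) (F : Finset U) (z : U)
    (hz : z ∉ F) {s ρ : ℝ} (u₁ u₂ : U)
    (hu₁ : ∀ x ∈ F, dist u₁ x = dist z x) (hu₂ : ∀ x ∈ F, dist u₂ x = dist z x)
    (m3 : 3 * s ∈ Δ) (m9 : 9 * s ∈ Δ) (mρ3 : ρ - 3 * s ∈ Δ) (mρ9 : ρ + 9 * s ∈ Δ)
    (hρs : 12 * s < ρ)
    (c1 : ρ ≤ dist u₁ (a u₁)) (c1' : dist u₁ (a u₁) ≤ ρ + 18 * s)
    (c2 : dist u₂ (a u₂) ≤ ρ) (c2' : ρ - 6 * s ≤ dist u₂ (a u₂))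
    (d12 : dist u₁ u₂ = 12 * s)
    (e1 : ρ + 6 * s ≤ dist (a u₁) u₂) (e1' : dist (a u₁) u₂ ≤ ρ + 12 * s)
    (e2 : ρ - 12 * s ≤ dist u₁ (a u₂)) (e2' : dist u₁ (a u₂) ≤ ρ + 6 * s)
    (hF : ∀ x ∈ F, 9 * s ≤ 2 * dist z x)
    (hF1 : ∀ x ∈ F, |dist z x - (ρ + 9 * s)| ≤ dist x (a u₁) ∧
      dist x (a u₁) ≤ dist z x + (ρ + 9 * s))
    (hF2 : ∀ x ∈ F, |dist z x - (ρ - 3 * s)| ≤ dist x (a u₂) ∧
      dist x (a u₂) ≤ dist z x + (ρ - 3 * s)) :
    ∃ (F' : Finset U) (z' : U), F ⊆ F' ∧ z' ∉ F' ∧ (∀ x ∈ F, dist z' x = dist z x) ∧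
      ∀ y, (∀ x ∈ F', dist y x = dist z' x) → dist y (a y) = ρ := by
  classical
  have hs0 : 0 < s := by have := hΔ.pos m3; linarith
  obtain ⟨z', hz', hq⟩ := hU.ext F z hz ![u₁, a u₁, u₂, a u₂]
    ![9 * s, ρ + 9 * s, 3 * s, ρ - 3 * s]
    (by intro i; fin_cases i; exacts [m9, mρ9, m3, mρ3])
    (by
      apply symm_pairs
      · intro i; fin_cases i
        exacts [(hΔ.pos m9).le, (hΔ.pos mρ9).le, (hΔ.pos m3).le, (hΔ.pos mρ3).le]
      · intro i j hij
        fin_cases i <;> fin_cases j <;> first | (exfalso; revert hij; decide) | skip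
        · change |9 * s - (ρ + 9 * s)| ≤ dist u₁ (a u₁) ∧ dist u₁ (a u₁) ≤ 9 * s + (ρ + 9 * s)
          rw [abs_le]
          refine ⟨⟨by linarith, by linarith⟩, by linarith⟩
        · change |9 * s - 3 * s| ≤ dist u₁ u₂ ∧ dist u₁ u₂ ≤ 9 * s + 3 * s
          rw [abs_le]
          refine ⟨⟨by linarith, by linarith⟩, by linarith⟩
        · change |9 * s - (ρ - 3 * s)| ≤ dist u₁ (a u₂) ∧ dist u₁ (a u₂) ≤ 9 * s + (ρ - 3 * s)
          rw [abs_le]
          refine ⟨⟨by linarith, by linarith⟩, by linarith⟩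
        · change |(ρ + 9 * s) - 3 * s| ≤ dist (a u₁) u₂ ∧ dist (a u₁) u₂ ≤ (ρ + 9 * s) + 3 * s
          rw [abs_le]
          refine ⟨⟨by linarith, by linarith⟩, by linarith⟩
        · change |(ρ + 9 * s) - (ρ - 3 * s)| ≤ dist (a u₁) (a u₂) ∧
            dist (a u₁) (a u₂) ≤ (ρ + 9 * s) + (ρ - 3 * s)
          rw [a.dist_eq, abs_le]
          refine ⟨⟨by linarith, by linarith⟩, by linarith⟩
        · change |3 * s - (ρ - 3 * s)| ≤ dist u₂ (a u₂) ∧ dist u₂ (a u₂) ≤ 3 * s + (ρ - 3 * s)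
          rw [abs_le]
          refine ⟨⟨by linarith, by linarith⟩, by linarith⟩)
    (by
      intro x hx i
      have f1 := hu₁ x hx
      have f2 := hu₂ x hx
      have f3 := hF x hx
      fin_cases i
      · change |dist z x - 9 * s| ≤ dist x u₁ ∧ dist x u₁ ≤ dist z x + 9 * s
        rw [dist_comm x u₁, f1, abs_le]
        refine ⟨⟨by linarith, by linarith⟩, by linarith⟩
      · exact hF1 x hx
      · change |dist z x - 3 * s| ≤ dist x u₂ ∧ dist x u₂ ≤ dist z x + 3 * s
        rw [dist_comm x u₂, f2, abs_le]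
        refine ⟨⟨by linarith, by linarith⟩, by linarith⟩
      · exact hF2 x hx)
  have g0 : dist z' u₁ = 9 * s := hq 0
  have g1 : dist z' (a u₁) = ρ + 9 * s := hq 1
  have g2 : dist z' u₂ = 3 * s := hq 2
  have g3 : dist z' (a u₂) = ρ - 3 * s := hq 3
  refine ⟨F ∪ {u₁, a u₁, u₂, a u₂}, z', Finset.subset_union_left, ?_, hz', ?_⟩
  · simp only [Finset.mem_union, Finset.mem_insert, Finset.mem_singleton, not_or]
    refine ⟨?_, ?_, ?_, ?_, ?_⟩
    · intro h
      have h7 := hz' z' h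
      rw [dist_self] at h7
      have := hF z' h
      linarith
    · intro h; rw [← h, dist_self] at g0; linarith
    · intro h; rw [← h, dist_self] at g1; linarith
    · intro h; rw [← h, dist_self] at g2; linarith
    · intro h; rw [← h, dist_self] at g3; linarith
  · intro y hy
    have k0 := hy u₁ (by simp)
    have k1 := hy (a u₁) (by simp)
    have k2 := hy u₂ (by simp)
    have k3 := hy (a u₂) (by simp)
    rw [g0] at k0
    rw [g1] at k1
    rw [g2] at k2
    rw [g3] at k3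
    have t1 := dist_triangle y (a y) (a u₁)
    have t2 := dist_triangle y (a u₂) (a y)
    rw [a.dist_eq] at t1 t2
    rw [dist_comm u₂ y] at t2
    linarith

/-- In the case `inf Δ = 0`, every type over an `a`-invariant finite set extends to a type on which
the displacement of `a` is constant. -/
theorem exists_ext_const (hΔ : IsDistanceValueSet Δ) (h0 : ∀ ε > 0, ∃ δ ∈ Δ, δ < ε)
    (hU : IsUrysohn Δ U) (a : U ≃ᵢ U) (F : Finset U) (z : U) (hz : z ∉ F)
    (hinv : ∀ x ∈ F, a x ∈ F) (hinv' : ∀ x ∈ F, a.symm x ∈ F) :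
    ∃ (F' : Finset U) (z' : U) (ρ : ℝ), F ⊆ F' ∧ z' ∉ F' ∧ (∀ x ∈ F, dist z' x = dist z x) ∧
      ∀ y, (∀ x ∈ F', dist y x = dist z' x) → dist y (a y) = ρ := by
  classical
  by_cases hconst : ∀ y, (∀ x ∈ F, dist y x = dist z x) → dist y (a y) = dist z (a z)
  · exact ⟨F, z, dist z (a z), le_rfl, hz, fun _ _ => rfl, hconst⟩
  push Not at hconst
  obtain ⟨y, hy, hyz⟩ := hconst
  -- two realizations with different displacements
  obtain ⟨y', y'', hy', hy'', hlt⟩ : ∃ y' y'', (∀ x ∈ F, dist y' x = dist z x) ∧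
      (∀ x ∈ F, dist y'' x = dist z x) ∧ dist y' (a y') < dist y'' (a y'') := by
    rcases lt_or_gt_of_ne hyz with h | h
    · exact ⟨y, z, hy, fun _ _ => rfl, h⟩
    · exact ⟨z, y, fun _ _ => rfl, hy, h⟩
  have hne : Δ.Nonempty := by
    obtain ⟨δ, hδ, -⟩ := h0 1 one_pos
    exact ⟨δ, hδ⟩
  obtain ⟨-, ⟨t, ht, ht'⟩⟩ := finite_dists hΔ hU hne (insert z F)
  have ht0 := hΔ.pos ht
  have htF : ∀ x ∈ F, t ≤ dist z x := fun x hx =>
    ht' z (Finset.mem_insert_self _ _) x (Finset.mem_insert_of_mem hx) (by rintro rfl; exact hz hx)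
  set C' := dist y' (a y') with hC'
  set C'' := dist y'' (a y'') with hC''
  have hC'0 : 0 ≤ C' := dist_nonneg
  obtain ⟨s, hs, hsl⟩ := h0 (min ((C'' - C') / 1000) (t / 100)) (by
    apply lt_min
    · linarith
    · linarith)
  have hs0 := hΔ.pos hs
  have hs1 : 1000 * s < C'' - C' := by
    have := lt_of_lt_of_le hsl (min_le_left _ _)
    linarith
  have hs2 : ∀ x ∈ F, 100 * s < dist z x := by
    intro x hx
    have := lt_of_lt_of_le hsl (min_le_right _ _)
    have := htF x hx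
    linarith
  have hC''Δ : C'' ∈ Δ := by
    apply hU.dist_mem
    intro h
    have : C'' = 0 := by rw [hC'', ← h, dist_self]
    linarith
  obtain ⟨n, hn⟩ := exists_nat_ge (dist y'' y' / (s / 2))
  have hn' : dist y'' y' ≤ n * (s / 2) := by
    rwa [div_le_iff₀ (by linarith)] at hn
  obtain ⟨y₁, y₂, hy₁, hy₂, hc2, hc1, hd⟩ := chain hΔ h0 hU F z hz (fun y => dist y (a y))
    (mid := (C' + C'') / 2) hs (fun x hx => by have := hs2 x hx; linarith) n y'' y' hy'' hy'
    (by simp only [← hC']; linarith) (by simp only [← hC'']; linarith) (by linarith)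
  set mid := (C' + C'') / 2 with hmid
  -- Lipschitz property of the displacement
  have hLip : ∀ u v : U, dist u (a u) ≤ dist v (a v) + 2 * dist u v := by
    intro u v
    have t1 := dist_triangle4 u v (a v) (a u)
    rw [a.dist_eq, dist_comm v u] at t1
    linarith
  have hL1 := hLip y₁ y₂
  have hc12 : dist y₂ (a y₂) < dist y₁ (a y₁) := lt_of_lt_of_le hc2 hc1
  have hy₁Δ : dist y₁ (a y₁) ∈ Δ := by
    apply hU.dist_mem
    intro h
    have h9 : dist y₁ (a y₁) = 0 := by rw [← h, dist_self]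
    linarith
  obtain ⟨r, hr, hr1, hr2⟩ := hΔ.dense h0 (p := dist y₂ (a y₂) - 3 * s)
    (q := dist y₁ (a y₁) - 3 * s) (by linarith) (by linarith) hy₁Δ (by linarith)
  -- the displacement value which will be forced
  set ρ := r + 3 * s with hρ
  have hρ1 : dist y₂ (a y₂) < ρ := by linarith
  have hρ2 : ρ < dist y₁ (a y₁) := by linarith
  have hmidρ1 : mid - 4 * s < ρ := by linarith
  have hmidρ2 : ρ < mid + 4 * s := by linarith
  have m3 : 3 * s ∈ Δ := by
    have := hΔ.nsmul_mem hs hC''Δ 2 (by push_cast; linarith)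
    norm_num at this; exact this
  have m9 : 9 * s ∈ Δ := by
    have := hΔ.nsmul_mem hs hC''Δ 8 (by push_cast; linarith)
    norm_num at this; exact this
  have m12 : 12 * s ∈ Δ := by
    have := hΔ.nsmul_mem hs hC''Δ 11 (by push_cast; linarith)
    norm_num at this; exact this
  have mρ3 : ρ - 3 * s ∈ Δ := by rw [hρ]; simpa using hr
  have mρ6 : ρ + 6 * s ∈ Δ := by
    have : r + 9 * s ∈ Δ := hΔ.add_mem hr m9 hC''Δ (by linarith)
    rw [hρ]; convert this using 1; ring
  have mρ9 : ρ + 9 * s ∈ Δ := by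
    have : r + 12 * s ∈ Δ := hΔ.add_mem hr m12 hC''Δ (by linarith)
    rw [hρ]; convert this using 1; ring
  -- convexity: any value close to `mid` is compatible with the type over `F`
  have conv1 : ∀ v, C' ≤ v → v ≤ C'' → ∀ x ∈ F, ∀ u, (∀ x ∈ F, dist u x = dist z x) →
      |dist z x - v| ≤ dist x (a u) ∧ dist x (a u) ≤ dist z x + v := by
    intro v hv1 hv2 x hx u hu
    have g1 : dist x (a u) = dist z (a.symm x) := by
      rw [← hu _ (hinv' x hx), ← a.dist_eq u, a.apply_symm_apply, dist_comm]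
    have g2 : dist x (a y') = dist z (a.symm x) := by
      rw [← hy' _ (hinv' x hx), ← a.dist_eq y', a.apply_symm_apply, dist_comm]
    have g3 : dist x (a y'') = dist z (a.symm x) := by
      rw [← hy'' _ (hinv' x hx), ← a.dist_eq y'', a.apply_symm_apply, dist_comm]
    have f1 := hy' x hx
    have f2 := hy'' x hx
    have t1 := dist_triangle y' x (a y')
    have t2 := dist_triangle y'' (a y'') x
    have t3 := dist_triangle x y' (a y')
    have t4 := dist_triangle y' (a y') x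
    have t5 := dist_triangle y'' x (a y'')
    rw [dist_comm (a y'') x] at t2
    rw [dist_comm (a y') x] at t4
    rw [dist_comm x y'] at t3
    rw [g1, abs_le]
    refine ⟨⟨by linarith, by linarith⟩, by linarith⟩
  have conv2 : ∀ v, C' ≤ v → v ≤ C'' → ∀ x ∈ F, ∀ u, (∀ x ∈ F, dist u x = dist z x) →
      |dist z x - v| ≤ dist x (a.symm u) ∧ dist x (a.symm u) ≤ dist z x + v := by
    intro v hv1 hv2 x hx u hu
    have g1 : dist x (a.symm u) = dist z (a x) := by
      rw [← hu _ (hinv x hx), ← a.dist_eq x, a.apply_symm_apply, dist_comm]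
    have g2 : dist x (a.symm y') = dist z (a x) := by
      rw [← hy' _ (hinv x hx), ← a.dist_eq x, a.apply_symm_apply, dist_comm]
    have g3 : dist x (a.symm y'') = dist z (a x) := by
      rw [← hy'' _ (hinv x hx), ← a.dist_eq x, a.apply_symm_apply, dist_comm]
    have h1 : dist y' (a.symm y') = C' := by
      rw [← a.dist_eq, a.apply_symm_apply, dist_comm]
    have h2 : dist y'' (a.symm y'') = C'' := by
      rw [← a.dist_eq, a.apply_symm_apply, dist_comm]
    have f1 := hy' x hx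
    have f2 := hy'' x hx
    have t1 := dist_triangle y' x (a.symm y')
    have t2 := dist_triangle y'' (a.symm y'') x
    have t3 := dist_triangle x y' (a.symm y')
    have t4 := dist_triangle y' (a.symm y') x
    have t5 := dist_triangle y'' x (a.symm y'')
    rw [dist_comm (a.symm y'') x] at t2
    rw [dist_comm (a.symm y') x] at t4
    rw [dist_comm x y'] at t3
    rw [g1, abs_le]
    refine ⟨⟨by linarith, by linarith⟩, by linarith⟩
  -- displacement of the inverse
  have hsy : ∀ u : U, dist u (a.symm u) = dist u (a u) := by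
    intro u; rw [← a.dist_eq, a.apply_symm_apply, dist_comm]
  -- distances between y's and their images
  have hd0 : 0 ≤ dist y₁ y₂ := dist_nonneg
  have hd' : dist y₂ y₁ ≤ 2 * s := by rw [dist_comm]; exact hd
  have hda : ∀ u v w : U, dist u v ≤ 2 * s → ρ - 4 * s ≤ dist v w → dist v w ≤ ρ + 4 * s →
      ρ - 6 * s ≤ dist u w ∧ dist u w ≤ ρ + 6 * s := by
    intro u v w h1 h2 h3
    have t1 := dist_triangle u v w
    have t2 := dist_triangle v u w
    rw [dist_comm v u] at t2
    constructor <;> linarith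
  have A1 : ρ - 4 * s ≤ dist y₁ (a y₁) ∧ dist y₁ (a y₁) ≤ ρ + 4 * s := ⟨by linarith, by linarith⟩
  have A2 : ρ - 4 * s ≤ dist y₂ (a y₂) ∧ dist y₂ (a y₂) ≤ ρ + 4 * s := ⟨by linarith, by linarith⟩
  have A1' : ρ - 4 * s ≤ dist y₁ (a.symm y₁) ∧ dist y₁ (a.symm y₁) ≤ ρ + 4 * s := by
    rw [hsy]; exact A1
  have A2' : ρ - 4 * s ≤ dist y₂ (a.symm y₂) ∧ dist y₂ (a.symm y₂) ≤ ρ + 4 * s := by
    rw [hsy]; exact A2
  have B21 := hda y₂ y₁ (a y₁) hd' A1.1 A1.2
  have B12 := hda y₁ y₂ (a y₂) hd A2.1 A2.2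
  have B21' := hda y₂ y₁ (a.symm y₁) hd' A1'.1 A1'.2
  have B12' := hda y₁ y₂ (a.symm y₂) hd A2'.1 A2'.2
  obtain ⟨y₃, hy₃, hq⟩ := hU.ext F z hz ![y₁, y₂, a y₁, a.symm y₁, a y₂, a.symm y₂]
    ![12 * s, 12 * s, ρ + 6 * s, ρ + 6 * s, ρ + 6 * s, ρ + 6 * s]
    (by intro i; fin_cases i; exacts [m12, m12, mρ6, mρ6, mρ6, mρ6])
    (by
      have key1 : ∀ u w : U, ρ - 6 * s ≤ dist u w → dist u w ≤ ρ + 6 * s →
          |12 * s - (ρ + 6 * s)| ≤ dist u w ∧ dist u w ≤ 12 * s + (ρ + 6 * s) := by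
        intro u w h1 h2
        rw [abs_le]
        refine ⟨⟨by linarith, by linarith⟩, by linarith⟩
      have key2 : ∀ u v w x : U, dist u v ≤ ρ + 4 * s → dist v w ≤ 2 * s → dist w x ≤ ρ + 4 * s →
          |(ρ + 6 * s) - (ρ + 6 * s)| ≤ dist u x ∧ dist u x ≤ (ρ + 6 * s) + (ρ + 6 * s) := by
        intro u v w x h1 h2 h3
        have := dist_triangle4 u v w x
        rw [sub_self, abs_zero]
        exact ⟨dist_nonneg, by linarith⟩
      have hself : ∀ u : U, dist u u ≤ 2 * s := by intro u; rw [dist_self]; linarith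
      apply symm_pairs
      · intro i; fin_cases i
        exacts [(hΔ.pos m12).le, (hΔ.pos m12).le, (hΔ.pos mρ6).le, (hΔ.pos mρ6).le,
          (hΔ.pos mρ6).le, (hΔ.pos mρ6).le]
      · intro i j hij
        fin_cases i <;> fin_cases j <;> first | (exfalso; revert hij; decide) | skip
        · change |12 * s - 12 * s| ≤ dist y₁ y₂ ∧ dist y₁ y₂ ≤ 12 * s + 12 * s
          rw [sub_self, abs_zero]
          exact ⟨hd0, by linarith⟩
        · exact key1 y₁ (a y₁) (by linarith) (by linarith)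
        · exact key1 y₁ (a.symm y₁) (by linarith) (by linarith)
        · exact key1 y₁ (a y₂) B12.1 B12.2
        · exact key1 y₁ (a.symm y₂) B12'.1 B12'.2
        · exact key1 y₂ (a y₁) B21.1 B21.2
        · exact key1 y₂ (a.symm y₁) B21'.1 B21'.2
        · exact key1 y₂ (a y₂) (by linarith) (by linarith)
        · exact key1 y₂ (a.symm y₂) (by linarith) (by linarith)
        · exact key2 (a y₁) y₁ y₁ (a.symm y₁) (by rw [dist_comm]; exact A1.2) (hself _) A1'.2
        · exact key2 (a y₁) y₁ y₂ (a y₂) (by rw [dist_comm]; exact A1.2) hd A2.2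
        · exact key2 (a y₁) y₁ y₂ (a.symm y₂) (by rw [dist_comm]; exact A1.2) hd A2'.2
        · exact key2 (a.symm y₁) y₁ y₂ (a y₂) (by rw [dist_comm]; exact A1'.2) hd A2.2
        · exact key2 (a.symm y₁) y₁ y₂ (a.symm y₂) (by rw [dist_comm]; exact A1'.2) hd A2'.2
        · exact key2 (a y₂) y₂ y₂ (a.symm y₂) (by rw [dist_comm]; exact A2.2) (hself _) A2'.2)
    (by
      intro x hx i
      have f1 := hy₁ x hx
      have f2 := hy₂ x hx
      have f3 := hs2 x hx
      have hv1 : C' ≤ ρ + 6 * s := by linarith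
      have hv2 : ρ + 6 * s ≤ C'' := by linarith
      fin_cases i
      · change |dist z x - 12 * s| ≤ dist x y₁ ∧ dist x y₁ ≤ dist z x + 12 * s
        rw [dist_comm x y₁, f1, abs_le]
        refine ⟨⟨by linarith, by linarith⟩, by linarith⟩
      · change |dist z x - 12 * s| ≤ dist x y₂ ∧ dist x y₂ ≤ dist z x + 12 * s
        rw [dist_comm x y₂, f2, abs_le]
        refine ⟨⟨by linarith, by linarith⟩, by linarith⟩
      · exact conv1 _ hv1 hv2 x hx y₁ hy₁
      · exact conv2 _ hv1 hv2 x hx y₁ hy₁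
      · exact conv1 _ hv1 hv2 x hx y₂ hy₂
      · exact conv2 _ hv1 hv2 x hx y₂ hy₂)
  have g0 : dist y₃ y₁ = 12 * s := hq 0
  have g1 : dist y₃ y₂ = 12 * s := hq 1
  have g2 : dist y₃ (a y₁) = ρ + 6 * s := hq 2
  have g3 : dist y₃ (a.symm y₁) = ρ + 6 * s := hq 3
  have g4 : dist y₃ (a y₂) = ρ + 6 * s := hq 4
  have g5 : dist y₃ (a.symm y₂) = ρ + 6 * s := hq 5
  have g3' : dist y₁ (a y₃) = ρ + 6 * s := by
    rw [← g3, ← a.dist_eq y₃, a.apply_symm_apply, dist_comm]
  have g5' : dist y₂ (a y₃) = ρ + 6 * s := by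
    rw [← g5, ← a.dist_eq y₃, a.apply_symm_apply, dist_comm]
  rcases le_total (dist y₃ (a y₃)) ρ with hcase | hcase
  · -- configuration (y₁, y₃)
    obtain ⟨F', z', h1, h2, h3, h4⟩ := force hΔ hU a F z hz (s := s) (ρ := ρ) y₁ y₃ hy₁ hy₃ m3 m9
      mρ3 mρ9 (by linarith) hρ2.le (by linarith) hcase
      (by
        have t1 := dist_triangle4 y₃ (a y₃) (a y₁) (a y₁)
        have t2 := dist_triangle y₃ (a y₃) (a y₁)
        rw [a.dist_eq] at t2
        linarith)
      (by rw [dist_comm]; exact g0)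
      (by rw [dist_comm, g2]) (by rw [dist_comm, g2]; linarith)
      (by rw [g3']; linarith) (by rw [g3'])
      (fun x hx => by have := hs2 x hx; linarith)
      (fun x hx => conv1 _ (by linarith) (by linarith) x hx y₁ hy₁)
      (fun x hx => conv1 _ (by linarith) (by linarith) x hx y₃ hy₃)
    exact ⟨F', z', ρ, h1, h2, h3, h4⟩
  · -- configuration (y₃, y₂)
    obtain ⟨F', z', h1, h2, h3, h4⟩ := force hΔ hU a F z hz (s := s) (ρ := ρ) y₃ y₂ hy₃ hy₂ m3 m9
      mρ3 mρ9 (by linarith) hcase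
      (by
        have t2 := dist_triangle y₃ (a y₂) (a y₃)
        rw [a.dist_eq, dist_comm y₂ y₃] at t2
        linarith)
      hρ1.le (by linarith) g1
      (by rw [dist_comm, g5']) (by rw [dist_comm, g5']; linarith)
      (by rw [g4]; linarith) (by rw [g4])
      (fun x hx => by have := hs2 x hx; linarith)
      (fun x hx => conv1 _ (by linarith) (by linarith) x hx y₃ hy₃)
      (fun x hx => conv1 _ (by linarith) (by linarith) x hx y₂ hy₂)
    exact ⟨F', z', ρ, h1, h2, h3, h4⟩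

/-- A realized type over a finite set. -/
structure Ty (U : Type*) [MetricSpace U] where
  F : Finset U
  z : U
  hz : z ∉ F

/-- `T'` extends `T`. -/
def Ty.Ext (T T' : Ty U) : Prop := T.F ⊆ T'.F ∧ ∀ x ∈ T.F, dist T'.z x = dist T.z x

/-- `y` realizes `T`. -/
def Ty.Real (T : Ty U) (y : U) : Prop := ∀ x ∈ T.F, dist y x = dist T.z x

theorem Ty.Ext.refl (T : Ty U) : T.Ext T := ⟨subset_rfl, fun _ _ => rfl⟩

theorem Ty.Ext.trans {T T' T'' : Ty U} (h : T.Ext T') (h' : T'.Ext T'') : T.Ext T'' :=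
  ⟨h.1.trans h'.1, fun x hx => (h'.2 x (h.1 hx)).trans (h.2 x hx)⟩

theorem Ty.Ext.real {T T' : Ty U} (h : T.Ext T') {y : U} (hy : T'.Real y) : T.Real y :=
  fun x hx => (hy x (h.1 hx)).trans (h.2 x hx)

theorem Ty.real_z (T : Ty U) : T.Real T.z := fun _ _ => rfl

/-- pigeonhole -/
theorem pigeon {κ : Type*} (c : U → κ) (C : Finset κ) :
    ∀ T : Ty U, (∀ T' : Ty U, T.Ext T' → ∃ y, T'.Real y ∧ c y ∈ C) →
      ∃ T₁ : Ty U, T.Ext T₁ ∧ ∃ k, ∀ T' : Ty U, T₁.Ext T' → ∃ y, T'.Real y ∧ c y = k := by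
  classical
  induction C using Finset.induction_on with
  | empty =>
    intro T h
    obtain ⟨y, -, hy⟩ := h T (Ty.Ext.refl T)
    simp at hy
  | insert k C hk ih =>
    intro T h
    by_cases h1 : ∀ T' : Ty U, T.Ext T' → ∃ y, T'.Real y ∧ c y = k
    · exact ⟨T, Ty.Ext.refl T, k, h1⟩
    · push Not at h1
      obtain ⟨T₁, hT₁, h2⟩ := h1
      obtain ⟨T₂, hT₂, h3⟩ := ih T₁ (fun T' hT' => by
        obtain ⟨y, hy, hyC⟩ := h T' (hT₁.trans hT')
        refine ⟨y, hy, ?_⟩
        rcases Finset.mem_insert.1 hyC with h4 | h4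
        · exact absurd h4 (h2 y (hT'.real hy))
        · exact h4)
      exact ⟨T₂, hT₁.trans hT₂, h3⟩

/-- twins avoiding a finite set -/
theorem twin (hΔ : IsDistanceValueSet Δ) (hne : Δ.Nonempty) (hU : IsUrysohn Δ U)
    (z : U) (S : Finset U) :
    ∃ z', (∀ x ∈ S, x ≠ z → dist z' x = dist z x) ∧ z' ∉ S ∧ z' ≠ z := by
  classical
  obtain ⟨-, ⟨t, ht, ht'⟩⟩ := finite_dists hΔ hU hne (insert z S)
  have ht0 := hΔ.pos ht
  obtain ⟨z', h1, h2⟩ := hU.ext (S.erase z) z (by simp) (ι := Unit) (fun _ => z) (fun _ => t)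
    (fun _ => ht) (by intro _ _; simp; linarith)
    (by
      intro x hx _
      have hx' := Finset.mem_erase.1 hx
      have := ht' z (Finset.mem_insert_self _ _) x (Finset.mem_insert_of_mem hx'.2) hx'.1.symm
      rw [dist_comm x z, abs_le]
      refine ⟨⟨by linarith, by linarith⟩, by linarith⟩)
  have h3 := h2 ()
  have h4 : z' ≠ z := by rintro rfl; rw [dist_self] at h3; linarith
  refine ⟨z', fun x hx hne => h1 x (Finset.mem_erase.2 ⟨hne, hx⟩), ?_, h4⟩
  intro hS
  have := h1 z' (Finset.mem_erase.2 ⟨h4, hS⟩)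
  rw [dist_self] at this
  exact h4 (dist_eq_zero.1 this.symm).symm

/-- a type can be extended to a type over a bigger given finite set -/
theorem Ty.exists_ext_set (hΔ : IsDistanceValueSet Δ) (hne : Δ.Nonempty) (hU : IsUrysohn Δ U)
    (T : Ty U) (S : Finset U) (hS : T.F ⊆ S) : ∃ T' : Ty U, T.Ext T' ∧ T'.F = S := by
  obtain ⟨z', h1, h2, h3⟩ := twin hΔ hne hU T.z S
  refine ⟨⟨S, z', h2⟩, ⟨hS, ?_⟩, rfl⟩
  intro x hx
  exact h1 x (hS hx) (by rintro rfl; exact T.hz hx)

section action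

variable {A : Type*} [Group A] [Finite A] (φ : A →* (U ≃ᵢ U))

omit [Finite A] in
theorem exists_moved_all (hΔ : IsDistanceValueSet Δ) (h2 : Δ.Nontrivial) (hU : IsUrysohn Δ U)
    (hφ : Function.Injective φ) (T : Ty U) (s : Finset A) (hs : 1 ∉ s) :
    ∃ T' : Ty U, T.Ext T' ∧ ∀ y, T'.Real y → ∀ a ∈ s, φ a y ≠ y := by
  classical
  induction s using Finset.induction_on with
  | empty => exact ⟨T, Ty.Ext.refl T, by simp⟩
  | insert a s ha ih =>
    obtain ⟨T₁, hT₁, h1⟩ := ih (fun h => hs (Finset.mem_insert_of_mem h))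
    have ha1 : φ a ≠ 1 := by
      intro h
      apply hs
      rw [← φ.map_one] at h
      rw [← hφ h]
      exact Finset.mem_insert_self _ _
    have ha2 : ∃ x, φ a x ≠ x := by
      by_contra hcon
      push Not at hcon
      apply ha1
      ext x
      exact hcon x
    obtain ⟨F', z', h3, h4, h5, h6⟩ := exists_ext_moved hΔ h2 hU (φ a) ha2 T₁.F T₁.z T₁.hz
    have hE : T₁.Ext ⟨F', z', h4⟩ := ⟨h3, h5⟩
    refine ⟨⟨F', z', h4⟩, hT₁.trans hE, ?_⟩
    intro y hy b hb
    rcases Finset.mem_insert.1 hb with rfl | hb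
    · exact h6 y hy
    · exact h1 y (hE.real hy) b hb

theorem exists_color_dense (hΔ : IsDistanceValueSet Δ) (h0 : ∀ ε > 0, ∃ δ ∈ Δ, δ < ε)
    (hU : IsUrysohn Δ U) (T : Ty U) (s : Finset A) :
    ∃ T' : Ty U, T.Ext T' ∧ ∃ k : A → ℝ, ∀ y, T'.Real y → ∀ a ∈ s, dist y (φ a y) = k a := by
  classical
  have hne : Δ.Nonempty := by
    obtain ⟨δ, hδ, -⟩ := h0 1 one_pos
    exact ⟨δ, hδ⟩
  have := Fintype.ofFinite A
  induction s using Finset.induction_on with
  | empty => exact ⟨T, Ty.Ext.refl T, fun _ => 0, by simp⟩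
  | insert a s ha ih =>
    obtain ⟨T₁, hT₁, k, h1⟩ := ih
    obtain ⟨T₂, hT₂, hF⟩ := T₁.exists_ext_set hΔ hne hU
      (Finset.univ.biUnion (fun b : A => T₁.F.image (φ b)))
      (by
        intro x hx
        refine Finset.mem_biUnion.2 ⟨1, Finset.mem_univ _, ?_⟩
        refine Finset.mem_image.2 ⟨x, hx, by simp⟩)
    have hinv : ∀ b : A, ∀ x ∈ T₂.F, φ b x ∈ T₂.F := by
      intro b x hx
      rw [hF] at hx ⊢
      obtain ⟨c, -, hc⟩ := Finset.mem_biUnion.1 hx
      obtain ⟨w, hw, rfl⟩ := Finset.mem_image.1 hc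
      refine Finset.mem_biUnion.2 ⟨b * c, Finset.mem_univ _, ?_⟩
      exact Finset.mem_image.2 ⟨w, hw, by rw [map_mul]; rfl⟩
    obtain ⟨F', z', ρ, h3, h4, h5, h6⟩ := exists_ext_const hΔ h0 hU (φ a) T₂.F T₂.z T₂.hz
      (hinv a) (fun x hx => by
        have h7 := hinv a⁻¹ x hx
        rw [map_inv] at h7
        exact h7)
    have hE : T₂.Ext ⟨F', z', h4⟩ := ⟨h3, h5⟩
    refine ⟨⟨F', z', h4⟩, (hT₁.trans hT₂).trans hE, fun b => if b = a then ρ else k b, ?_⟩
    intro y hy b hb
    rcases Finset.mem_insert.1 hb with rfl | hb'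
    · simp only [if_true]; exact h6 y hy
    · have hba : b ≠ a := fun h => ha (h ▸ hb')
      simp only [if_neg hba]
      exact h1 y ((hT₂.trans hE).real hy) b hb'

/-- Every type extends to a type over which some displacement vector is hereditarily realized. -/
theorem exists_color (hΔ : IsDistanceValueSet Δ) (h2 : Δ.Nontrivial)
    (hcase : (∀ r : ℝ, (Δ ∩ Set.Iic r).Finite) ∨ (∀ ε > 0, ∃ δ ∈ Δ, δ < ε))
    (hU : IsUrysohn Δ U) (T : Ty U) :
    ∃ T₁ : Ty U, T.Ext T₁ ∧ ∃ k : A → ℝ, ∀ T' : Ty U, T₁.Ext T' →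
      ∃ y, T'.Real y ∧ ∀ a, dist y (φ a y) = k a := by
  classical
  have := Fintype.ofFinite A
  rcases hcase with hfin | h0
  · -- locally finite case
    have hne : Δ.Nonempty := h2.nonempty
    obtain ⟨T₀, hT₀, hF₀⟩ := T.exists_ext_set hΔ hne hU (insert T.z T.F) (Finset.subset_insert _ _)
    have hx₀ : T.z ∈ T₀.F := by rw [hF₀]; exact Finset.mem_insert_self _ _
    set x₀ := T.z
    let B : A → ℝ := fun a => 2 * dist T₀.z x₀ + dist x₀ (φ a x₀)
    let S : A → Set ℝ := fun a => insert 0 (Δ ∩ Set.Iic (B a))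
    have hS : {f : A → ℝ | ∀ a, f a ∈ S a}.Finite := by
      have h1 : ∀ a, (S a).Finite := fun a => (hfin (B a)).insert 0
      exact Set.Finite.pi' h1
    obtain ⟨T₁, hT₁, k, hk⟩ := pigeon (fun y => fun a : A => dist y (φ a y)) hS.toFinset T₀ (by
      intro T' hT'
      refine ⟨T'.z, T'.real_z, ?_⟩
      rw [Set.Finite.mem_toFinset]
      intro a
      by_cases h : T'.z = φ a T'.z
      · left
        simp only
        rw [← h, dist_self]
      · right
        refine ⟨hU.dist_mem h, ?_⟩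
        have h3 := hT'.real T'.real_z x₀ hx₀
        have h4 := dist_triangle4 T'.z x₀ (φ a x₀) (φ a T'.z)
        rw [(φ a).dist_eq, dist_comm x₀ T'.z, h3] at h4
        simp only [Set.mem_Iic, B]
        linarith)
    refine ⟨T₁, hT₀.trans hT₁, k, fun T' hT' => ?_⟩
    obtain ⟨y, hy, hyk⟩ := hk T' hT'
    exact ⟨y, hy, fun a => congrFun hyk a⟩
  · obtain ⟨T₁, hT₁, k, hk⟩ := exists_color_dense φ hΔ h0 hU T (Finset.univ : Finset A)
    exact ⟨T₁, hT₁, k, fun T' hT' => ⟨T'.z, T'.real_z, fun a =>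
      hk _ (hT'.real T'.real_z) a (Finset.mem_univ _)⟩⟩

/-- The indiscernible points. -/
theorem exists_points (hΔ : IsDistanceValueSet Δ) (h2 : Δ.Nontrivial)
    (hcase : (∀ r : ℝ, (Δ ∩ Set.Iic r).Finite) ∨ (∀ ε > 0, ∃ δ ∈ Δ, δ < ε))
    (hU : IsUrysohn Δ U) (hφ : Function.Injective φ) :
    ∃ (k : A → ℝ) (s : ℝ), (∀ a, a ≠ 1 → 0 < k a) ∧ 0 < s ∧ ∀ n : ℕ, ∃ y : Fin n → U,
      (∀ i j, ∀ a, a ≠ 1 → dist (y i) (φ a (y j)) = k a) ∧
      (∀ i j, i ≠ j → dist (y i) (y j) = s) := by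
  classical
  have := Fintype.ofFinite A
  have hne : Δ.Nonempty := h2.nonempty
  obtain ⟨z₀⟩ := hU.nonempty
  obtain ⟨T₀, -, hT₀⟩ := exists_moved_all φ hΔ h2 hU hφ ⟨∅, z₀, by simp⟩
    (Finset.univ.erase (1 : A)) (by simp)
  obtain ⟨T, hT, k, hk⟩ := exists_color φ hΔ h2 hcase hU T₀
  obtain ⟨w₀, hw₀, hw₀k⟩ := hk T (Ty.Ext.refl T)
  have hkΔ : ∀ a, a ≠ 1 → k a ∈ Δ := by
    intro a ha
    rw [← hw₀k a]
    apply hU.dist_mem
    exact (hT₀ w₀ (hT.real hw₀) a (by simp [ha])).symm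
  have hkinv : ∀ a, k a⁻¹ = k a := by
    intro a
    rw [← hw₀k a, ← hw₀k a⁻¹, map_inv, ← (φ a).dist_eq, dist_comm]
    congr 1
    exact (φ a).apply_symm_apply w₀
  obtain ⟨t₁, ht₁, ht₁'⟩ : ∃ t ∈ Δ, ∀ a, a ≠ 1 → t ≤ k a := by
    obtain ⟨t, ht, ht'⟩ := exists_min ((Finset.univ.erase (1 : A)).image k) (by
      intro s hs
      obtain ⟨a, ha, rfl⟩ := Finset.mem_image.1 hs
      exact hkΔ a (Finset.mem_erase.1 ha).1) hne
    exact ⟨t, ht, fun a ha => ht' _ (Finset.mem_image_of_mem _ (by simp [ha]))⟩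
  obtain ⟨-, ⟨t₂, ht₂, ht₂'⟩⟩ := finite_dists hΔ hU hne (insert T.z T.F)
  obtain ⟨s, hs, hs'⟩ := exists_min {t₁, t₂} (by
    intro s hs
    simp only [Finset.mem_insert, Finset.mem_singleton] at hs
    rcases hs with rfl | rfl
    exacts [ht₁, ht₂]) hne
  have hs0 := hΔ.pos hs
  have hsk : ∀ a, a ≠ 1 → s ≤ k a := fun a ha => (hs' t₁ (by simp)).trans (ht₁' a ha)
  have hsF : ∀ x ∈ T.F, s ≤ dist T.z x := fun x hx => (hs' t₂ (by simp)).trans
    (ht₂' T.z (Finset.mem_insert_self _ _) x (Finset.mem_insert_of_mem hx)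
      (by rintro h; exact T.hz (h ▸ hx)))
  refine ⟨k, s, fun a ha => hΔ.pos (hkΔ a ha), hs0, ?_⟩
  -- induction with the stronger statement
  suffices H : ∀ n : ℕ, ∃ y : Fin n → U, (∀ i, T.Real (y i)) ∧
      (∀ i j, ∀ a, a ≠ 1 → dist (y i) (φ a (y j)) = k a) ∧
      (∀ i j, i ≠ j → dist (y i) (y j) = s) by
    intro n
    obtain ⟨y, -, h⟩ := H n
    exact ⟨y, h⟩
  intro n
  induction n with
  | zero => exact ⟨Fin.elim0, fun i => i.elim0, fun i => i.elim0, fun i => i.elim0⟩
  | succ n ih =>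
    obtain ⟨y, hy1, hy2, hy3⟩ := ih
    -- the type of the new point
    obtain ⟨T', hTT', hT'1, hT'2⟩ : ∃ T' : Ty U, T.Ext T' ∧
        (∀ w, T'.Real w → ∀ j, ∀ a, a ≠ 1 → dist w (φ a (y j)) = k a) ∧
        (∀ w, T'.Real w → ∀ j, dist w (y j) = s) := by
      rcases Nat.eq_zero_or_pos n with rfl | hn
      · exact ⟨T, Ty.Ext.refl T, fun _ _ j => j.elim0, fun _ _ j => j.elim0⟩
      · let i₀ : Fin n := ⟨0, hn⟩
        let P : Finset (A × Fin n) := Finset.univ.filter (fun p => p.1 ≠ 1)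
        let S : Finset U := T.F ∪ P.image (fun p => φ p.1 (y p.2))
        have hS : ∀ x ∈ S, x ∈ T.F ∨ ∃ a j, a ≠ 1 ∧ x = φ a (y j) := by
          intro x hx
          rcases Finset.mem_union.1 hx with h | h
          · exact Or.inl h
          · right
            obtain ⟨p, hp, rfl⟩ := Finset.mem_image.1 h
            exact ⟨p.1, p.2, (Finset.mem_filter.1 hp).2, rfl⟩
        have hS' : ∀ a j, a ≠ 1 → φ a (y j) ∈ S := by
          intro a j ha
          refine Finset.mem_union_right _ (Finset.mem_image.2 ⟨(a, j), ?_, rfl⟩)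
          simp [P, ha]
        have hdS : ∀ x ∈ S, ∀ i, dist x (y i) = dist (y i₀) x ∧ s ≤ dist (y i₀) x := by
          intro x hx i
          rcases hS x hx with h | ⟨a, j, ha, rfl⟩
          · rw [dist_comm x, hy1 i x h, hy1 i₀ x h]
            exact ⟨rfl, hsF x h⟩
          · rw [dist_comm _ (y i), hy2 i j a ha, hy2 i₀ j a ha]
            exact ⟨rfl, hsk a ha⟩
        have hy0S : y i₀ ∉ S := by
          intro h
          have := (hdS _ h i₀).2
          rw [dist_self] at this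
          linarith
        obtain ⟨w, hw1, hw2⟩ := hU.ext S (y i₀) hy0S y (fun _ => s) (fun _ => hs)
          (by
            intro i j
            rw [sub_self, abs_zero]
            by_cases hij : i = j
            · subst hij; rw [dist_self]; exact ⟨le_rfl, by linarith⟩
            · rw [hy3 i j hij]; exact ⟨hs0.le, by linarith⟩)
          (by
            intro x hx i
            obtain ⟨h3, h4⟩ := hdS x hx i
            rw [h3, abs_le]
            refine ⟨⟨by linarith, by linarith⟩, by linarith⟩)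
        refine ⟨⟨S ∪ Finset.univ.image y, w, ?_⟩, ⟨?_, ?_⟩, ?_, ?_⟩
        · intro h
          rcases Finset.mem_union.1 h with h | h
          · have h3 := (hdS _ h i₀).2
            rw [← hw1 w h, dist_self] at h3
            linarith
          · obtain ⟨i, -, hi⟩ := Finset.mem_image.1 h
            have := hw2 i
            rw [hi, dist_self] at this
            linarith
        · intro x hx
          exact Finset.mem_union_left _ (Finset.mem_union_left _ hx)
        · intro x hx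
          rw [hw1 x (Finset.mem_union_left _ hx), hy1 i₀ x hx]
        · intro w' hw' j a ha
          rw [hw' _ (Finset.mem_union_left _ (hS' a j ha))]
          rw [hw1 _ (hS' a j ha), hy2 i₀ j a ha]
        · intro w' hw' j
          rw [hw' _ (Finset.mem_union_right _ (Finset.mem_image_of_mem _ (Finset.mem_univ _)))]
          exact hw2 j
    obtain ⟨w, hw, hwk⟩ := hk T' hTT'
    have f1 := hT'1 w hw
    have f2 := hT'2 w hw
    have f1' : ∀ j, ∀ a, a ≠ 1 → dist (y j) (φ a w) = k a := by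
      intro j a ha
      rw [← hkinv a, ← f1 j a⁻¹ (inv_ne_one.2 ha), ← (φ a).dist_eq w, map_inv]
      rw [dist_comm (y j)]
      congr 1
      exact ((φ a).apply_symm_apply (y j)).symm
    refine ⟨Fin.cons w y, ?_, ?_, ?_⟩
    · intro i
      refine Fin.cases ?_ (fun i => ?_) i
      · exact hTT'.real hw
      · exact hy1 i
    · intro i j a ha
      refine Fin.cases ?_ (fun i => ?_) i <;> refine Fin.cases ?_ (fun j => ?_) j
      · exact hwk a
      · exact f1 j a ha
      · exact f1' i a ha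
      · exact hy2 i j a ha
    · intro i j
      refine Fin.cases ?_ (fun i => ?_) i <;> refine Fin.cases ?_ (fun j => ?_) j
      · intro h; exact absurd rfl h
      · intro _; exact f2 j
      · intro _; simp only [Fin.cons_succ, Fin.cons_zero]; rw [dist_comm]; exact f2 i
      · intro h; exact hy3 i j (fun h' => h (by rw [h']))

end action

theorem core (hΔ : IsDistanceValueSet Δ) (h2 : Δ.Nontrivial)
    (hcase : (∀ r : ℝ, (Δ ∩ Set.Iic r).Finite) ∨ (∀ ε > 0, ∃ δ ∈ Δ, δ < ε))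
    (hU : IsUrysohn Δ U) (G : Subgroup (U ≃ᵢ U)) (hG : IsDenseSubgroup G)
    (A : Subgroup G) [Finite A] {Γ : Type*} [Group Γ] [Finite Γ] (ι : A →* Γ) {n : ℕ}
    (γ : Fin n → Γ) :
    ∃ h : Fin n → G, ∀ w : Monoid.Coprod A (FreeGroup (Fin n)),
      Monoid.Coprod.lift ι (FreeGroup.lift γ) w ≠ 1 →
        Monoid.Coprod.lift A.subtype (FreeGroup.lift h) w ≠ 1 := by
  classical
  have := Fintype.ofFinite Γ
  let φ : A →* (U ≃ᵢ U) := G.subtype.comp A.subtype
  have hφ : Function.Injective φ := by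
    intro a b h
    exact Subtype.ext (Subtype.ext h)
  obtain ⟨k, s, hk, hs, hpts⟩ := exists_points φ hΔ h2 hcase hU hφ
  obtain ⟨y', hy1', hy2'⟩ := hpts (Fintype.card Γ)
  let e := Fintype.equivFin Γ
  let y : Γ → U := fun g => y' (e g)
  have hy1 : ∀ g h : Γ, ∀ a : A, a ≠ 1 → dist (y g) (φ a (y h)) = k a :=
    fun g h a ha => hy1' _ _ a ha
  have hy2 : ∀ g h : Γ, g ≠ h → dist (y g) (y h) = s :=
    fun g h hgh => hy2' _ _ (fun h' => hgh (e.injective h'))
  -- the points indexed by `A × Γ`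
  let pt : A × Γ → U := fun p => φ p.1 (y ((ι p.1)⁻¹ * p.2))
  have hdist : ∀ p q : A × Γ, dist (pt p) (pt q) =
      if p.1 = q.1 then (if p.2 = q.2 then 0 else s) else k (p.1⁻¹ * q.1) := by
    intro p q
    by_cases h1 : p.1 = q.1
    · rw [if_pos h1]
      simp only [pt]
      rw [h1, (φ q.1).dist_eq]
      by_cases h3 : p.2 = q.2
      · rw [if_pos h3, h3, dist_self]
      · rw [if_neg h3]
        exact hy2 _ _ (fun h => h3 (mul_left_cancel h))
    · rw [if_neg h1]
      have h3 : p.1⁻¹ * q.1 ≠ 1 := by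
        intro h
        apply h1
        rw [inv_mul_eq_one] at h
        exact h
      rw [← hy1 ((ι p.1)⁻¹ * p.2) ((ι q.1)⁻¹ * q.2) _ h3, ← (φ p.1).dist_eq (y _)]
      simp only [pt]
      congr 1
      rw [← IsometryEquiv.mul_apply, ← map_mul, mul_inv_cancel_left]
  have hinj : Function.Injective pt := by
    intro p q hpq
    have h1 := hdist p q
    rw [hpq, dist_self] at h1
    split_ifs at h1 with h3 h4
    · exact Prod.ext h3 h4
    · exact absurd h1 hs.ne
    · exact absurd h1 (hk _ (by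
        intro h
        apply h3
        rw [inv_mul_eq_one] at h
        exact h)).ne
  -- left translations are partial isometries
  have htrans : ∀ q : A × Γ, ∃ h ∈ G, ∀ p, h (pt p) = pt (q * p) := by
    intro q
    obtain ⟨g, hg⟩ := hU.ultrahomogeneous pt (fun p => pt (q * p)) (by
      intro p p'
      rw [hdist, hdist]
      simp only [Prod.fst_mul, Prod.snd_mul, mul_right_inj, mul_inv_rev]
      congr 1
      group)
    have := Fintype.ofFinite A
    obtain ⟨h, hh, hh'⟩ := hG g (Finset.univ.image pt)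
    refine ⟨h, hh, fun p => ?_⟩
    rw [hh' _ (Finset.mem_image_of_mem _ (Finset.mem_univ _)), hg]
  choose H hHG hH using htrans
  let h : Fin n → G := fun j => ⟨H (1, γ j), hHG _⟩
  refine ⟨h, ?_⟩
  let Θ : Monoid.Coprod A (FreeGroup (Fin n)) →* G :=
    Monoid.Coprod.lift A.subtype (FreeGroup.lift h)
  let Φ : Monoid.Coprod A (FreeGroup (Fin n)) →* A × Γ :=
    Monoid.Coprod.lift ((MonoidHom.id A).prod ι) (FreeGroup.lift (fun j => (1, γ j)))
  have hΦ : (MonoidHom.snd A Γ).comp Φ = Monoid.Coprod.lift ι (FreeGroup.lift γ) := by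
    apply Monoid.Coprod.hom_ext
    · ext a; simp [Φ]
    · apply FreeGroup.ext_hom
      intro j
      simp [Φ]
  have key : ∀ w p, (Θ w : U ≃ᵢ U) (pt p) = pt (Φ w * p) := by
    intro w
    induction w using Monoid.Coprod.induction_on with
    | inl a =>
      intro p
      simp only [Θ, Φ, Monoid.Coprod.lift_apply_inl]
      change φ a (pt p) = pt ((a, ι a) * p)
      simp only [pt, Prod.fst_mul, Prod.snd_mul, map_mul]
      rw [IsometryEquiv.mul_apply]
      congr 2
      group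
    | inr x =>
      simp only [Θ, Φ, Monoid.Coprod.lift_apply_inr]
      induction x using FreeGroup.induction_on with
      | C1 => intro p; simp
      | of j =>
        intro p
        rw [FreeGroup.lift_apply_of, FreeGroup.lift_apply_of]
        exact hH (1, γ j) p
      | inv_of j ih =>
        intro p
        rw [map_inv, map_inv]
        have h3 := ih ((FreeGroup.lift (fun j => ((1 : A), γ j)) (FreeGroup.of j))⁻¹ * p)
        rw [mul_inv_cancel_left] at h3
        rw [← h3]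
        exact ((FreeGroup.lift h (FreeGroup.of j) : G) : U ≃ᵢ U).symm_apply_apply _
      | mul x y hx hy =>
        intro p
        rw [map_mul, map_mul, mul_assoc, ← hx, ← hy]
        rfl
    | mul x y hx hy =>
      intro p
      rw [map_mul, map_mul, mul_assoc, ← hx, ← hy]
      rfl
  intro w hw hcon
  apply hw
  rw [← hΦ]
  have h3 := key w 1
  rw [show Θ w = 1 from hcon] at h3
  have h4 : pt 1 = pt (Φ w * 1) := h3
  have h5 := hinj h4
  rw [mul_one] at h5
  rw [MonoidHom.comp_apply, ← h5]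
  rfl

/-- **Main theorem.**  Let `Δ` be a distance value set with at least two elements such that, if `Δ` is
bounded away from `0`, then every bounded part of `Δ` is finite.  (So either `inf Δ = 0`, or `Δ` is
a locally finite set of reals.)  Let `U` be the Urysohn `Δ`-metric space.  Then every dense locally
finite subgroup of `Iso(U)` is `∞`-MIF. -/
theorem result (Δ : Set ℝ) (hΔ : IsDistanceValueSet Δ) (h2 : Δ.Nontrivial)
    (hfin : (∃ ε > 0, ∀ δ ∈ Δ, ε ≤ δ) → ∀ r : ℝ, (Δ ∩ Set.Iic r).Finite)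
    {U : Type*} [MetricSpace U] (hU : IsUrysohn Δ U)
    (G : Subgroup (U ≃ᵢ U)) (hG : IsDenseSubgroup G) (hlf : IsLocallyFiniteGroup G) :
    IsInftyMIF G := by
  classical
  have hcase : (∀ r : ℝ, (Δ ∩ Set.Iic r).Finite) ∨ (∀ ε > 0, ∃ δ ∈ Δ, δ < ε) := by
    by_cases h : ∃ ε > 0, ∀ δ ∈ Δ, ε ≤ δ
    · exact Or.inl (hfin h)
    · right
      push Not at h
      exact h
  intro k n g w _ hΓ
  obtain ⟨Γ, _, _, ι, γ, -, hw⟩ := hΓ
  have : Finite (Subgroup.closure (Set.range g)) := by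
    have := hlf (Finset.univ.image g)
    rwa [Finset.coe_image, Finset.coe_univ, Set.image_univ] at this
  obtain ⟨h, hh⟩ := core hΔ h2 hcase hU G hG (Subgroup.closure (Set.range g)) ι γ
  exact ⟨h, fun i => hh (w i) (hw i)⟩

end Pool.Agent.Results.MP_fee130_al.DenseLocallyFiniteInftyMIF
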